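import Pool.Agent.TH51.SeymourTrace.Arc

set_option autoImplicit false

namespace Pool.Agent.TH51.SeymourTrace

open Finset

variable {n t : ℕ}

/-- `I +` adjacency matrix. -/
def adj (E : Fin t → Finset (Fin n × Fin n)) (k : Fin t) : Mat n :=
  fun u v => if u = v ∨ (u, v) ∈ E k then 1 else 0

/-- A walk with pairwise different labels. -/
def IsWalk (E : Fin t → Finset (Fin n × Fin n)) (m : ℕ) (v : ℕ → Fin n) (f : ℕ → Fin t) : Prop :=
  (∀ i < m, (v i, v (i+1)) ∈ E (f i)) ∧ ∀ i < m, ∀ j < m, f i = f j → i = j

def consFn {α : Type*} (a : α) (g : ℕ → α) : ℕ → α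
  | 0 => a
  | (i+1) => g i

theorem walk_of_ne_zero (E : Fin t → Finset (Fin n × Fin n)) (x0 : Fin t) (L : List (Fin t)) :
    L.Nodup → ∀ u w, (L.map (adj E)).prod u w ≠ 0 →
      ∃ m v f, IsWalk E m v f ∧ v 0 = u ∧ v m = w ∧ ∀ i < m, f i ∈ L := by
  induction L with
  | nil =>
    intro _ u w h
    have huw : u = w := by
      by_contra hne
      apply h
      simp [Matrix.one_apply_ne hne]
    exact ⟨0, fun _ => u, fun _ => x0, ⟨fun i hi => absurd hi (Nat.not_lt_zero i),
          fun i hi => absurd hi (Nat.not_lt_zero i)⟩, rfl, huw,
          fun i hi => absurd hi (Nat.not_lt_zero i)⟩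
  | cons k L ih =>
    intro hnd u w h
    rw [List.nodup_cons] at hnd
    rw [List.map_cons, List.prod_cons, Matrix.mul_apply] at h
    obtain ⟨j, _, hj⟩ := Finset.exists_ne_zero_of_sum_ne_zero h
    have h1 : adj E k u j ≠ 0 := left_ne_zero_of_mul hj
    have h2 : (L.map (adj E)).prod j w ≠ 0 := right_ne_zero_of_mul hj
    obtain ⟨m, v, f, hw, hv0, hvm, hf⟩ := ih hnd.2 j w h2
    by_cases huj : u = j
    · subst huj
      exact ⟨m, v, f, hw, hv0, hvm, fun i hi => List.mem_cons_of_mem _ (hf i hi)⟩
    · have he : (u, j) ∈ E k := by
        by_contra hne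
        apply h1
        simp [adj, huj, hne]
      refine ⟨m + 1, consFn u v, consFn k f, ⟨?_, ?_⟩, rfl, hvm, ?_⟩
      · intro i hi
        cases i with
        | zero =>
          show (u, v 0) ∈ E k
          rw [hv0]; exact he
        | succ i => exact hw.1 i (by omega)
      · intro i hi i' hi' hff
        cases i with
        | zero =>
          cases i' with
          | zero => rfl
          | succ i' =>
            exfalso
            have : k = f i' := hff
            exact hnd.1 (this ▸ hf i' (by omega))
        | succ i =>
          cases i' with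
          | zero =>
            exfalso
            have : f i = k := hff
            exact hnd.1 (this ▸ hf i (by omega))
          | succ i' =>
            have := hw.2 i (by omega) i' (by omega) hff
            omega
      · intro i hi
        cases i with
        | zero => exact List.mem_cons_self ..
        | succ i => exact List.mem_cons_of_mem _ (hf i (by omega))

/-- Without closed walks with different labels the diagonal of the product is at most one. -/
theorem diag_le_one (E : Fin t → Finset (Fin n × Fin n)) (x0 : Fin t)
    (hno : ∀ m v f, 1 ≤ m → IsWalk E m v f → v 0 ≠ v m) (L : List (Fin t)) :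
    L.Nodup → ∀ u, (L.map (adj E)).prod u u ≤ 1 := by
  induction L with
  | nil => intro _ u; simp
  | cons k L ih =>
    intro hnd u
    have hnd' := List.nodup_cons.mp hnd
    rw [List.map_cons, List.prod_cons, Matrix.mul_apply]
    rw [Finset.sum_eq_single u]
    · have h1 := ih hnd'.2 u
      have h2 : adj E k u u = 1 := by simp [adj]
      rw [h2, one_mul]
      exact h1
    · intro j _ hju
      by_contra hne
      have h1 : adj E k u j ≠ 0 := left_ne_zero_of_mul hne
      have h2 : (L.map (adj E)).prod j u ≠ 0 := right_ne_zero_of_mul hne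
      obtain ⟨m, v, f, hw, hv0, hvm, hf⟩ := walk_of_ne_zero E x0 L hnd'.2 j u h2
      have he : (u, j) ∈ E k := by
        by_contra hne'
        apply h1
        simp [adj, Ne.symm hju, hne']
      refine hno (m + 1) (consFn u v) (consFn k f) (by omega) ⟨?_, ?_⟩ ?_
      · intro i hi
        cases i with
        | zero =>
          show (u, v 0) ∈ E k
          rw [hv0]; exact he
        | succ i => exact hw.1 i (by omega)
      · intro i hi i' hi' hff
        cases i with
        | zero =>
          cases i' with
          | zero => rfl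
          | succ i' =>
            exfalso
            have : k = f i' := hff
            exact hnd'.1 (this ▸ hf i' (by omega))
        | succ i =>
          cases i' with
          | zero =>
            exfalso
            have : f i = k := hff
            exact hnd'.1 (this ▸ hf i (by omega))
          | succ i' =>
            have := hw.2 i (by omega) i' (by omega) hff
            omega
      · show u = v m
        rw [hvm]
    · intro h
      exact absurd (Finset.mem_univ u) h

/-- A closed walk with different labels contains a rainbow cycle. -/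
theorem cycle_of_walk (E : Fin t → Finset (Fin n × Fin n)) (hloop : ∀ i, ∀ e ∈ E i, e.1 ≠ e.2)
    (h : ∃ m v f, 1 ≤ m ∧ IsWalk E m v f ∧ v 0 = v m) :
    ∃ k : ℕ, 2 ≤ k ∧ ∃ c : Fin k → Fin n, Function.Injective c ∧
      ∃ f : Fin k → Fin t, Function.Injective f ∧
        ∀ j : Fin k, (c j, c (finRotate k j)) ∈ E (f j) := by
  classical
  set m := Nat.find h with hm
  obtain ⟨v, f, hm1, hw, hcl⟩ := Nat.find_spec h
  have hmin : ∀ m' < m, ¬ ∃ v f, 1 ≤ m' ∧ IsWalk E m' v f ∧ v 0 = v m' :=
    fun m' h' => Nat.find_min h h'
  rw [← hm] at hm1 hw hcl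
  have hinj : ∀ i j, i < j → j < m → v i ≠ v j := by
    intro i j hij hjm heq
    apply hmin (j - i) (by omega)
    refine ⟨fun x => v (i + x), fun x => f (i + x), by omega, ⟨?_, ?_⟩, ?_⟩
    · intro x hx
      exact hw.1 (i + x) (by omega)
    · intro x hx y hy hxy
      have := hw.2 (i + x) (by omega) (i + y) (by omega) hxy
      omega
    · show v (i + 0) = v (i + (j - i))
      rw [Nat.add_zero, heq]
      congr 1
      omega
  have hm2 : 2 ≤ m := by
    by_contra hlt
    have hm' : m = 1 := by omega
    have h1 := hw.1 0 (by omega)
    have h2 := hloop _ _ h1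
    apply h2
    rw [hm'] at hcl
    exact hcl
  obtain ⟨k, hk⟩ : ∃ k, m = k + 1 := ⟨m - 1, by omega⟩
  refine ⟨m, hm2, fun i => v i, ?_, fun i => f i, ?_, ?_⟩
  · intro i j hij
    rcases lt_trichotomy (i : ℕ) j with h1 | h1 | h1
    · exact absurd hij (hinj i j h1 j.2)
    · exact Fin.ext h1
    · exact absurd hij.symm (hinj j i h1 i.2)
  · intro i j hij
    exact Fin.ext (hw.2 i i.2 j j.2 hij)
  · intro j
    have h1 := hw.1 j j.2
    have h2 : v ((finRotate m j : Fin m) : ℕ) = v ((j : ℕ) + 1) := by
      clear_value m
      subst hk
      rw [coe_finRotate]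
      split_ifs with hl
      · rw [hcl, hl]
        simp
      · rfl
    show (v j, v ((finRotate m j : Fin m) : ℕ)) ∈ E (f j)
    rw [h2]
    exact h1

end Pool.Agent.TH51.SeymourTrace
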