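import Pool.Agent.TH51.SeymourTrace.Rel

set_option autoImplicit false

namespace Pool.Agent.TH51.SeymourTrace

open Finset Classical

variable {n : ℕ}

abbrev Mat (n : ℕ) := Matrix (Fin n) (Fin n) ℕ

/-- Number of nonzero entries of row `u`. -/
noncomputable def rowSupp (M : Mat n) (u : Fin n) : ℕ :=
  ((Finset.univ : Finset (Fin n)).filter (fun v => M u v ≠ 0)).card

/-- `M` is invariant under `G`. -/
def Inv (G : Subgroup (Equiv.Perm (Fin n))) (M : Mat n) : Prop :=
  ∀ g ∈ G, ∀ i j, M (g i) (g j) = M i j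

theorem Inv.mul {G : Subgroup (Equiv.Perm (Fin n))} {M N : Mat n} (hM : Inv G M) (hN : Inv G N) :
    Inv G (M * N) := by
  intro g hg i j
  rw [Matrix.mul_apply, Matrix.mul_apply]
  rw [← Equiv.sum_comp g]
  refine Finset.sum_congr rfl (fun k _ => ?_)
  rw [hM g hg, hN g hg]

theorem Inv.one (G : Subgroup (Equiv.Perm (Fin n))) : Inv G (1 : Mat n) := by
  intro g _ i j
  by_cases h : i = j
  · subst h; simp
  · rw [Matrix.one_apply_ne h, Matrix.one_apply_ne (fun e => h (g.injective e))]

theorem mul_ge (M N : Mat n) (i j k : Fin n) : M i k * N k j ≤ (M * N) i j := by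
  rw [Matrix.mul_apply]
  exact Finset.single_le_sum (f := fun k => M i k * N k j) (fun _ _ => Nat.zero_le _)
    (Finset.mem_univ k)

theorem mul_ge_two (M N : Mat n) (i j k l : Fin n) (hkl : k ≠ l) :
    M i k * N k j + M i l * N l j ≤ (M * N) i j := by
  rw [Matrix.mul_apply]
  have h := Finset.sum_le_sum_of_subset (f := fun k => M i k * N k j)
    (Finset.subset_univ ({k, l} : Finset (Fin n)))
  rwa [Finset.sum_pair hkl] at h

/-- The product of a list of matrices with nonzero diagonals has nonzero diagonal. -/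
theorem listprod_diag : ∀ (L : List (Mat n)), (∀ M ∈ L, ∀ i, M i i ≠ 0) → ∀ i, L.prod i i ≠ 0 := by
  intro L
  induction L with
  | nil => intro _ i; simp
  | cons M L ih =>
    intro h i
    rw [List.prod_cons]
    have h1 := mul_ge M L.prod i i i
    have h2 : M i i ≠ 0 := h M (List.mem_cons_self ..) i
    have h3 := ih (fun N hN => h N (List.mem_cons_of_mem _ hN)) i
    have : 0 < M i i * L.prod i i := Nat.mul_pos (Nat.pos_of_ne_zero h2) (Nat.pos_of_ne_zero h3)
    omega

/-- No nontrivial closed walk: the supports of `M` and of the transpose of `N` meet only in the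
diagonal. -/
theorem closed {M N : Mat n} (hM : ∀ i, M i i ≠ 0) (hN : ∀ i, N i i ≠ 0)
    (h : ∀ i, (M * N) i i ≤ 1) (u v : Fin n) (h1 : M u v ≠ 0) (h2 : N v u ≠ 0) : u = v := by
  by_contra huv
  have h3 := mul_ge_two M N u u u v huv
  have h4 : 0 < M u u * N u u :=
    Nat.mul_pos (Nat.pos_of_ne_zero (hM u)) (Nat.pos_of_ne_zero (hN u))
  have h5 : 0 < M u v * N v u := Nat.mul_pos (Nat.pos_of_ne_zero h1) (Nat.pos_of_ne_zero h2)
  have := h u
  omega

/-- Growth for a list of matrices invariant under one transitive group. -/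
theorem inv_list (G : Subgroup (Equiv.Perm (Fin n)))
    (htr : ∀ u v : Fin n, ∃ g ∈ G, g u = v) (L : List (Mat n × ℕ)) :
    (∀ x ∈ L, ∀ i, x.1 i i ≠ 0) → (∀ x ∈ L, ∀ i, x.2 + 1 ≤ rowSupp x.1 i) →
    (∀ x ∈ L, Inv G x.1) → (∀ i, (L.map Prod.fst).prod i i ≤ 1) →
    Inv G (L.map Prod.fst).prod ∧
      ∀ i, 1 + (L.map Prod.snd).sum ≤ rowSupp (L.map Prod.fst).prod i := by
  induction L using List.reverseRecOn with
  | nil =>
    intro _ _ _ _
    refine ⟨by simpa using Inv.one G, fun i => ?_⟩
    simp only [List.map_nil, List.sum_nil, List.prod_nil, add_zero]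
    rw [rowSupp, Nat.succ_le_iff, Finset.card_pos]
    exact ⟨i, by simp⟩
  | append_singleton L x ih =>
    intro hd hr hI hle
    have hd' : ∀ y ∈ L, ∀ i, y.1 i i ≠ 0 := fun y hy => hd y (List.mem_append_left _ hy)
    have hr' : ∀ y ∈ L, ∀ i, y.2 + 1 ≤ rowSupp y.1 i := fun y hy => hr y (List.mem_append_left _ hy)
    have hI' : ∀ y ∈ L, Inv G y.1 := fun y hy => hI y (List.mem_append_left _ hy)
    have hx : x ∈ L ++ [x] := List.mem_append_right _ (List.mem_singleton_self x)
    have hxd := hd x hx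
    have hxr := hr x hx
    have hxI := hI x hx
    simp only [List.map_append, List.map_cons, List.map_nil, List.prod_append, List.prod_cons,
      List.prod_nil, mul_one, List.sum_append, List.sum_cons, List.sum_nil, add_zero] at hle ⊢
    set P := (L.map Prod.fst).prod with hP
    have hPd : ∀ i, P i i ≠ 0 := by
      apply listprod_diag
      intro M hM
      obtain ⟨y, hy, rfl⟩ := List.mem_map.mp hM
      exact hd' y hy
    have hPle : ∀ i, P i i ≤ 1 := by
      intro i
      have h1 := mul_ge P x.1 i i i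
      have h2 := Nat.pos_of_ne_zero (hxd i)
      have h3 : P i i ≤ P i i * x.1 i i := Nat.le_mul_of_pos_right _ h2
      have h4 := hle i
      omega
    obtain ⟨hPI, hPr⟩ := ih hd' hr' hI' hPle
    refine ⟨hPI.mul hxI, fun i => ?_⟩
    have key := rel_growth G htr (fun u v => P u v ≠ 0) (fun u v => x.1 u v ≠ 0)
      (fun u v => (P * x.1) u v ≠ 0)
      (fun g hg u v h => by rw [hPI g hg]; exact h)
      (fun g hg u v h => by rw [hxI g hg]; exact h)
      hPd hxd (fun u v h1 h2 => closed hPd hxd hle u v h1 h2)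
      (fun u v w h1 h2 => by
        have h3 := mul_ge P x.1 u w v
        have h4 : 0 < P u v * x.1 v w :=
          Nat.mul_pos (Nat.pos_of_ne_zero h1) (Nat.pos_of_ne_zero h2)
        omega) i
    have h1 := hPr i
    have h2 := hxr i
    have key' : rowSupp P i + rowSupp x.1 i ≤ rowSupp (P * x.1) i + 1 := by
      unfold rowSupp
      convert key
    omega

end Pool.Agent.TH51.SeymourTrace
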