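import Pool.Agent.TH51.SeymourTrace.Arc

set_option autoImplicit false

namespace Pool.Agent.TH51.SeymourTrace.Blocks

open Pool.Agent.TH51.SeymourTrace Finset

variable {n : ℕ}

/-- Two matrices, the first with parameter at most two, the second oriented. -/
theorem two (M N : Mat n) (a b : ℕ) (ha : a ≤ 2) (hM : ∀ i, M i i ≠ 0) (hN : ∀ i, N i i ≠ 0)
    (hMr : ∀ i, a + 1 ≤ rowSupp M i) (hNr : ∀ i, b + 1 ≤ rowSupp N i)
    (hor : ∀ i j, i ≠ j → N i j ≠ 0 → N j i = 0)
    (hle : ∀ i, (M * N) i i ≤ 1) (i : Fin n) : 1 + (a + b) ≤ rowSupp (M * N) i := by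
  classical
  have hmono : ∀ j, M i j ≠ 0 → ∀ v, N j v ≠ 0 → (M * N) i v ≠ 0 := by
    intro j hj v hv
    have e1 := mul_ge M N i v j
    have e2 : 0 < M i j * N j v :=
      Nat.mul_pos (Nat.pos_of_ne_zero hj) (Nat.pos_of_ne_zero hv)
    omega
  have hself : ∀ j, M i j ≠ 0 → (M * N) i j ≠ 0 := fun j hj => hmono j hj j (hN j)
  have hzero : ∀ j, j ≠ i → M i j ≠ 0 → N j i = 0 := by
    intro j hji hj
    by_contra hne
    exact hji (closed hM hN hle i j hj hne).symm
  set X := (Finset.univ : Finset (Fin n)).filter (fun v => M i v ≠ 0) with hX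
  have hXc : a + 1 ≤ X.card := hMr i
  have hiX : i ∈ X := by rw [hX, Finset.mem_filter]; exact ⟨Finset.mem_univ _, hM i⟩
  have hXe : (X.erase i).card = X.card - 1 := Finset.card_erase_of_mem hiX
  have memX : ∀ j, j ∈ X.erase i → j ≠ i ∧ M i j ≠ 0 := by
    intro j hj
    rw [Finset.mem_erase, hX, Finset.mem_filter] at hj
    exact ⟨hj.1, hj.2.2⟩
  -- the support of the row of the product
  have key : ∀ (j : Fin n), M i j ≠ 0 → ∀ E : Finset (Fin n),
      (∀ v ∈ E, M i v ≠ 0 ∧ N j v = 0) → E.card + (b + 1) ≤ rowSupp (M * N) i := by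
    intro j hj E hE
    have hsub : E ∪ (Finset.univ : Finset (Fin n)).filter (fun v => N j v ≠ 0) ⊆
        (Finset.univ : Finset (Fin n)).filter (fun v => (M * N) i v ≠ 0) := by
      intro v hv
      rw [Finset.mem_union, Finset.mem_filter] at hv
      rw [Finset.mem_filter]
      rcases hv with hv | hv
      · exact ⟨Finset.mem_univ _, hself v (hE v hv).1⟩
      · exact ⟨Finset.mem_univ _, hmono j hj v hv.2⟩
    have hdis : Disjoint E ((Finset.univ : Finset (Fin n)).filter (fun v => N j v ≠ 0)) := by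
      rw [Finset.disjoint_left]
      intro v hv hv2
      rw [Finset.mem_filter] at hv2
      exact hv2.2 (hE v hv).2
    have hc := Finset.card_le_card hsub
    rw [Finset.card_union_of_disjoint hdis] at hc
    have := hNr j
    unfold rowSupp at this ⊢
    omega
  rcases Nat.eq_zero_or_pos a with h0 | h0
  · have := key i (hM i) ∅ (by simp)
    simp only [Finset.card_empty] at this
    omega
  · rcases Nat.lt_or_ge 1 a with h1 | h1
    · -- a = 2
      have h2 : 1 < (X.erase i).card := by omega
      obtain ⟨j, hj, k, hk, hjk⟩ := Finset.one_lt_card.mp h2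
      obtain ⟨hji, hMj⟩ := memX j hj
      obtain ⟨hki, hMk⟩ := memX k hk
      have hor' : N j k = 0 ∨ N k j = 0 := by
        by_cases h : N j k = 0
        · exact Or.inl h
        · exact Or.inr (hor j k hjk h)
      rcases hor' with h | h
      · have := key j hMj {i, k} (by
          intro v hv
          rw [Finset.mem_insert, Finset.mem_singleton] at hv
          rcases hv with rfl | rfl
          · exact ⟨hM _, hzero j hji hMj⟩
          · exact ⟨hMk, h⟩)
        rw [Finset.card_pair (Ne.symm hki)] at this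
        omega
      · have := key k hMk {i, j} (by
          intro v hv
          rw [Finset.mem_insert, Finset.mem_singleton] at hv
          rcases hv with rfl | rfl
          · exact ⟨hM _, hzero k hki hMk⟩
          · exact ⟨hMj, h⟩)
        rw [Finset.card_pair (Ne.symm hji)] at this
        omega
    · have h2 : 0 < (X.erase i).card := by omega
      obtain ⟨j, hj⟩ := Finset.card_pos.mp h2
      obtain ⟨hji, hMj⟩ := memX j hj
      have := key j hMj {i} (by
        intro v hv
        rw [Finset.mem_singleton] at hv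
        subst hv
        exact ⟨hM _, hzero j hji hMj⟩)
      rw [Finset.card_singleton] at this
      omega

/-- An arc: at most one matrix, or all matrices invariant under a transitive group, or two
matrices, the first with parameter at most two, the second oriented. -/
theorem arc (L : List (Mat n × ℕ)) (hd : ∀ x ∈ L, ∀ i, x.1 i i ≠ 0)
    (hr : ∀ x ∈ L, ∀ i, x.2 + 1 ≤ rowSupp x.1 i)
    (hI : L.length ≤ 1 ∨ (∃ G : Subgroup (Equiv.Perm (Fin n)),
      (∀ u v : Fin n, ∃ g ∈ G, g u = v) ∧ ∀ x ∈ L, Inv G x.1) ∨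
      ∃ x y, L = [x, y] ∧ x.2 ≤ 2 ∧ ∀ i j, i ≠ j → y.1 i j ≠ 0 → y.1 j i = 0)
    (hle : ∀ i, (L.map Prod.fst).prod i i ≤ 1) (i : Fin n) :
    1 + (L.map Prod.snd).sum ≤ rowSupp (L.map Prod.fst).prod i := by
  rcases hI with hI | ⟨G, htr, hI⟩ | ⟨x, y, rfl, hx2, hor⟩
  · match L, hI with
    | [], _ =>
      simp only [List.map_nil, List.sum_nil, List.prod_nil, add_zero]
      rw [rowSupp, Nat.succ_le_iff, Finset.card_pos]
      exact ⟨i, by simp⟩
    | [x], _ =>
      have := hr x (List.mem_singleton_self x) i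
      simp only [List.map_cons, List.map_nil, List.sum_cons, List.sum_nil, List.prod_cons,
        List.prod_nil, mul_one, add_zero]
      omega
  · exact (inv_list G htr L hd hr hI hle).2 i
  · simp only [List.map_cons, List.map_nil, List.sum_cons, List.sum_nil, List.prod_cons,
      List.prod_nil, mul_one, add_zero] at hle ⊢
    exact two x.1 y.1 x.2 y.2 hx2 (hd x (by simp)) (hd y (by simp)) (hr x (by simp))
      (hr y (by simp)) hor hle i

/-- Matrices with parameter at most one may be put in front of an arc. -/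
theorem arc_ones (L2 : List (Mat n × ℕ)) (hd2 : ∀ x ∈ L2, ∀ i, x.1 i i ≠ 0)
    (hr2 : ∀ x ∈ L2, ∀ i, x.2 + 1 ≤ rowSupp x.1 i)
    (hI : L2.length ≤ 1 ∨ (∃ G : Subgroup (Equiv.Perm (Fin n)),
      (∀ u v : Fin n, ∃ g ∈ G, g u = v) ∧ ∀ x ∈ L2, Inv G x.1) ∨
      ∃ x y, L2 = [x, y] ∧ x.2 ≤ 2 ∧ ∀ i j, i ≠ j → y.1 i j ≠ 0 → y.1 j i = 0)
    (L1 : List (Mat n × ℕ)) :
    (∀ x ∈ L1, ∀ i, x.1 i i ≠ 0) → (∀ x ∈ L1, ∀ i, x.2 + 1 ≤ rowSupp x.1 i) →
    (∀ x ∈ L1, x.2 ≤ 1) → (∀ i, ((L1 ++ L2).map Prod.fst).prod i i ≤ 1) →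
    ∀ i, 1 + ((L1 ++ L2).map Prod.snd).sum ≤ rowSupp ((L1 ++ L2).map Prod.fst).prod i := by
  classical
  induction L1 with
  | nil =>
    intro _ _ _ hle i
    exact arc L2 hd2 hr2 hI hle i
  | cons x L1 ih =>
    intro hd hr h1 hle i
    have hxd := hd x (List.mem_cons_self ..)
    have hxr := hr x (List.mem_cons_self ..)
    have hx1 := h1 x (List.mem_cons_self ..)
    have hd' : ∀ y ∈ L1, ∀ i, y.1 i i ≠ 0 := fun y hy => hd y (List.mem_cons_of_mem _ hy)
    have hr' : ∀ y ∈ L1, ∀ i, y.2 + 1 ≤ rowSupp y.1 i :=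
      fun y hy => hr y (List.mem_cons_of_mem _ hy)
    have h1' : ∀ y ∈ L1, y.2 ≤ 1 := fun y hy => h1 y (List.mem_cons_of_mem _ hy)
    simp only [List.cons_append, List.map_cons, List.prod_cons, List.sum_cons] at hle ⊢
    set P := ((L1 ++ L2).map Prod.fst).prod with hP
    have hPd : ∀ i, P i i ≠ 0 := by
      apply listprod_diag
      intro M hM
      obtain ⟨y, hy, rfl⟩ := List.mem_map.mp hM
      rcases List.mem_append.mp hy with hy | hy
      · exact hd' y hy
      · exact hd2 y hy
    have hPle : ∀ i, P i i ≤ 1 := by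
      intro j
      have e1 := mul_ge x.1 P j j j
      have e2 : P j j ≤ x.1 j j * P j j := Nat.le_mul_of_pos_left _ (Nat.pos_of_ne_zero (hxd j))
      have e3 := hle j
      omega
    have hP' := ih hd' hr' h1' hPle
    have hmono : ∀ j, x.1 i j ≠ 0 → ∀ v, P j v ≠ 0 → (x.1 * P) i v ≠ 0 := by
      intro j hj v hv
      have e1 := mul_ge x.1 P i v j
      have e2 : 0 < x.1 i j * P j v :=
        Nat.mul_pos (Nat.pos_of_ne_zero hj) (Nat.pos_of_ne_zero hv)
      omega
    rcases Nat.eq_zero_or_pos x.2 with h0 | h0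
    · rw [h0, zero_add]
      refine (hP' i).trans ?_
      unfold rowSupp
      refine Finset.card_le_card (fun v hv => ?_)
      rw [Finset.mem_filter] at hv ⊢
      exact ⟨hv.1, hmono i (hxd i) v hv.2⟩
    · have hx2 : x.2 = 1 := by omega
      have hcard : 1 < rowSupp x.1 i := by
        have := hxr i
        omega
      unfold rowSupp at hcard
      obtain ⟨j, hj, hji⟩ := Finset.exists_mem_ne hcard i
      rw [Finset.mem_filter] at hj
      have hnot : P j i = 0 := by
        by_contra hne
        exact hji (closed hxd hPd hle i j hj.2 hne).symm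
      have hPj := hP' j
      have hsub : insert i ((Finset.univ : Finset (Fin n)).filter (fun v => P j v ≠ 0)) ⊆
          (Finset.univ : Finset (Fin n)).filter (fun v => (x.1 * P) i v ≠ 0) := by
        intro v hv
        rw [Finset.mem_insert, Finset.mem_filter] at hv
        rw [Finset.mem_filter]
        rcases hv with rfl | hv
        · exact ⟨Finset.mem_univ _, hmono v (hxd v) v (hPd v)⟩
        · exact ⟨hv.1, hmono j hj.2 v hv.2⟩
      have hc := Finset.card_le_card hsub
      rw [Finset.card_insert_of_notMem (by simp [hnot])] at hc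
      unfold rowSupp at hPj ⊢
      omega

/-- Double counting. -/
theorem count (P Q : Mat n) (h : ∀ u v, P u v ≠ 0 → Q v u ≠ 0 → u = v) :
    (∑ u, rowSupp P u) + (∑ u, rowSupp Q u) ≤ n * n + n := by
  classical
  have e1 : (∑ u, rowSupp P u) =
      ((Finset.univ : Finset (Fin n × Fin n)).filter (fun p => P p.1 p.2 ≠ 0)).card := by
    rw [Finset.card_filter, Fintype.sum_prod_type]
    refine Finset.sum_congr rfl (fun u _ => ?_)
    rw [rowSupp, Finset.card_filter]
  have e2 : (∑ u, rowSupp Q u) =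
      ((Finset.univ : Finset (Fin n × Fin n)).filter (fun p => Q p.2 p.1 ≠ 0)).card := by
    rw [Finset.card_filter, Fintype.sum_prod_type_right]
    refine Finset.sum_congr rfl (fun u _ => ?_)
    rw [rowSupp, Finset.card_filter]
  rw [e1, e2, ← Finset.card_union_add_card_inter]
  refine add_le_add ?_ ?_
  · refine (Finset.card_le_univ _).trans ?_
    simp
  · have hsub : ((Finset.univ : Finset (Fin n × Fin n)).filter (fun p => P p.1 p.2 ≠ 0)) ∩
        ((Finset.univ : Finset (Fin n × Fin n)).filter (fun p => Q p.2 p.1 ≠ 0)) ⊆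
        (Finset.univ : Finset (Fin n)).image (fun u => (u, u)) := by
      intro p hp
      rw [Finset.mem_inter, Finset.mem_filter, Finset.mem_filter] at hp
      have := h p.1 p.2 hp.1.2 hp.2.2
      rw [Finset.mem_image]
      exact ⟨p.1, Finset.mem_univ _, by ext <;> simp [this]⟩
    refine (Finset.card_le_card hsub).trans ?_
    refine Finset.card_image_le.trans ?_
    simp

end Pool.Agent.TH51.SeymourTrace.Blocks
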