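import Mathlib

set_option autoImplicit false

namespace Pool.Agent.TH51.SeymourTrace

open Finset

variable {Γ : Type*} [Group Γ] [Fintype Γ] [DecidableEq Γ]

/-- A form of Kemperman's inequality: if `A` is invariant under left multiplication by `H`, `B`
under right multiplication by `H`, `1 ∈ A ∩ B`, the only `a ∈ A` with `a⁻¹ ∈ B` lie in `H`, and
`C` contains all products, then `|A| + |B| ≤ |C| + |H|`. -/
theorem kemp_aux (H : Finset Γ) (hHinv : ∀ x ∈ H, x⁻¹ ∈ H) (C : Finset Γ) :
    ∀ (k : ℕ) (A B : Finset Γ),
      (∀ h ∈ H, ∀ a ∈ A, h * a ∈ A) → (∀ b ∈ B, ∀ h ∈ H, b * h ∈ B) →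
      (1:Γ) ∈ A → (1:Γ) ∈ B → (∀ a ∈ A, a⁻¹ ∈ B → a ∈ H) →
      (∀ a ∈ A, ∀ b ∈ B, a * b ∈ C) →
      (2 * Fintype.card Γ + 1) * (Fintype.card Γ + 1) ≤
        (A.card + B.card) * (Fintype.card Γ + 1) + A.card + k →
      A.card + B.card ≤ C.card + H.card := by
  intro k
  induction k with
  | zero =>
    intro A B hA hB hA1 hB1 hK hC hk
    exfalso
    have h1 : A.card ≤ Fintype.card Γ := Finset.card_le_univ A
    have h2 : B.card ≤ Fintype.card Γ := Finset.card_le_univ B
    nlinarith
  | succ k ih =>
    intro A B hA hB hA1 hB1 hK hC hk
    by_cases hcap : A ∩ B ⊆ H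
    · -- terminal case
      have hsub : A ∪ B ⊆ C := by
        intro x hx
        rcases Finset.mem_union.mp hx with h | h
        · have := hC x h 1 hB1
          simpa using this
        · have := hC 1 hA1 x h
          simpa using this
      have h1 := Finset.card_union_add_card_inter A B
      have h2 := Finset.card_le_card hsub
      have h3 := Finset.card_le_card hcap
      omega
    · obtain ⟨g, hg, hgH⟩ := Finset.not_subset.mp hcap
      obtain ⟨hgA, hgB⟩ := Finset.mem_inter.mp hg
      have hginvA : g⁻¹ ∉ A := by
        intro h
        have h1 := hK _ h (by simpa using hgB)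
        have := hHinv _ h1
        rw [inv_inv] at this
        exact hgH this
      -- right translate of A
      set Ag := A.image (fun a => a * g) with hAg
      set A' := A.image (fun a => a * g⁻¹) with hA'
      set gB := B.image (fun b => g * b) with hgBdef
      set g'B := B.image (fun b => g⁻¹ * b) with hg'B
      have memAg : ∀ x, x ∈ Ag ↔ x * g⁻¹ ∈ A := by
        intro x
        rw [hAg, Finset.mem_image]
        constructor
        · rintro ⟨a, ha, rfl⟩
          simpa using ha
        · intro h
          exact ⟨x * g⁻¹, h, by simp⟩
      have memA' : ∀ x, x ∈ A' ↔ x * g ∈ A := by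
        intro x
        rw [hA', Finset.mem_image]
        constructor
        · rintro ⟨a, ha, rfl⟩
          simpa using ha
        · intro h
          exact ⟨x * g, h, by simp⟩
      have memgB : ∀ x, x ∈ gB ↔ g⁻¹ * x ∈ B := by
        intro x
        rw [hgBdef, Finset.mem_image]
        constructor
        · rintro ⟨b, hb, rfl⟩
          simpa using hb
        · intro h
          exact ⟨g⁻¹ * x, h, by simp⟩
      have memg'B : ∀ x, x ∈ g'B ↔ g * x ∈ B := by
        intro x
        rw [hg'B, Finset.mem_image]
        constructor
        · rintro ⟨b, hb, rfl⟩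
          simpa using hb
        · intro h
          exact ⟨g * x, h, by simp⟩
      have cAg : Ag.card = A.card :=
        Finset.card_image_of_injective _ (mul_left_injective g)
      have cgB : gB.card = B.card :=
        Finset.card_image_of_injective _ (mul_right_injective g)
      -- sizes
      have sA : (A ∩ A').card = (A ∩ Ag).card := by
        have : (A ∩ A').image (fun a => a * g) = A ∩ Ag := by
          ext x
          rw [Finset.mem_image, Finset.mem_inter, memAg]
          constructor
          · rintro ⟨a, ha, rfl⟩
            rw [Finset.mem_inter, memA'] at ha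
            exact ⟨ha.2, by simpa using ha.1⟩
          · rintro ⟨h1, h2⟩
            refine ⟨x * g⁻¹, ?_, by simp⟩
            rw [Finset.mem_inter, memA']
            exact ⟨h2, by simpa using h1⟩
        rw [← this]
        exact (Finset.card_image_of_injective _ (mul_left_injective g)).symm
      have sB : (B ∩ g'B).card = (B ∩ gB).card := by
        have : (B ∩ g'B).image (fun b => g * b) = B ∩ gB := by
          ext x
          rw [Finset.mem_image, Finset.mem_inter, memgB]
          constructor
          · rintro ⟨b, hb, rfl⟩
            rw [Finset.mem_inter, memg'B] at hb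
            exact ⟨hb.2, by simpa using hb.1⟩
          · rintro ⟨h1, h2⟩
            refine ⟨g⁻¹ * x, ?_, by simp⟩
            rw [Finset.mem_inter, memg'B]
            exact ⟨h2, by simpa using h1⟩
        rw [← this]
        exact (Finset.card_image_of_injective _ (mul_right_injective g)).symm
      have tA := Finset.card_union_add_card_inter A Ag
      have tB := Finset.card_union_add_card_inter B gB
      -- first pair
      have P1 : ∀ (hm : (2 * Fintype.card Γ + 1) * (Fintype.card Γ + 1) ≤
          ((A ∪ Ag).card + (B ∩ g'B).card) * (Fintype.card Γ + 1) + (A ∪ Ag).card + k),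
          (A ∪ Ag).card + (B ∩ g'B).card ≤ C.card + H.card := by
        intro hm
        refine ih (A ∪ Ag) (B ∩ g'B) ?_ ?_ ?_ ?_ ?_ ?_ hm
        · intro h hh a ha
          rw [Finset.mem_union, memAg] at ha ⊢
          rcases ha with ha | ha
          · exact Or.inl (hA h hh a ha)
          · right
            have := hA h hh _ ha
            rwa [← mul_assoc] at this
        · intro b hb h hh
          rw [Finset.mem_inter, memg'B] at hb ⊢
          refine ⟨hB b hb.1 h hh, ?_⟩
          have := hB _ hb.2 h hh
          rwa [mul_assoc] at this
        · exact Finset.mem_union_left _ hA1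
        · rw [Finset.mem_inter, memg'B, mul_one]
          exact ⟨hB1, hgB⟩
        · intro a ha hb
          rw [Finset.mem_union, memAg] at ha
          rw [Finset.mem_inter, memg'B] at hb
          rcases ha with ha | ha
          · exact hK a ha hb.1
          · have h1 : (a * g⁻¹)⁻¹ ∈ B := by
              have : (a * g⁻¹)⁻¹ = g * a⁻¹ := by group
              rw [this]; exact hb.2
            have h2 := hK _ ha h1
            have h3 : a ∈ A := by
              have := hA _ h2 g hgA
              simpa using this
            exact hK a h3 hb.1
        · intro a ha b hb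
          rw [Finset.mem_union, memAg] at ha
          rw [Finset.mem_inter, memg'B] at hb
          rcases ha with ha | ha
          · exact hC a ha b hb.1
          · have := hC _ ha _ hb.2
            have e : a * g⁻¹ * (g * b) = a * b := by group
            rwa [e] at this
      have P2 : ∀ (hm : (2 * Fintype.card Γ + 1) * (Fintype.card Γ + 1) ≤
          ((A ∩ A').card + (B ∪ gB).card) * (Fintype.card Γ + 1) + (A ∩ A').card + k),
          (A ∩ A').card + (B ∪ gB).card ≤ C.card + H.card := by
        intro hm
        refine ih (A ∩ A') (B ∪ gB) ?_ ?_ ?_ ?_ ?_ ?_ hm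
        · intro h hh a ha
          rw [Finset.mem_inter, memA'] at ha ⊢
          refine ⟨hA h hh a ha.1, ?_⟩
          have := hA h hh _ ha.2
          rwa [← mul_assoc] at this
        · intro b hb h hh
          rw [Finset.mem_union, memgB] at hb ⊢
          rcases hb with hb | hb
          · exact Or.inl (hB b hb h hh)
          · right
            have := hB _ hb h hh
            rwa [mul_assoc] at this
        · rw [Finset.mem_inter, memA', one_mul]
          exact ⟨hA1, hgA⟩
        · exact Finset.mem_union_left _ hB1
        · intro a ha hb
          rw [Finset.mem_inter, memA'] at ha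
          rw [Finset.mem_union, memgB] at hb
          rcases hb with hb | hb
          · exact hK a ha.1 hb
          · have h1 : (a * g)⁻¹ ∈ B := by
              have : (a * g)⁻¹ = g⁻¹ * a⁻¹ := by group
              rw [this]; exact hb
            have h2 := hK _ ha.2 h1
            have h3 : a⁻¹ ∈ B := by
              have := hB g hgB _ (hHinv _ h2)
              have e : g * (a * g)⁻¹ = a⁻¹ := by group
              rwa [e] at this
            exact hK a ha.1 h3
        · intro a ha b hb
          rw [Finset.mem_inter, memA'] at ha
          rw [Finset.mem_union, memgB] at hb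
          rcases hb with hb | hb
          · exact hC a ha.1 b hb
          · have := hC _ ha.2 _ hb
            have e : a * g * (g⁻¹ * b) = a * b := by group
            rwa [e] at this
      have hlt : A.card < (A ∪ Ag).card := by
        rcases Nat.lt_or_ge A.card (A ∪ Ag).card with h | h
        · exact h
        · exfalso
          have h1 : A = A ∪ Ag :=
            Finset.eq_of_subset_of_card_le Finset.subset_union_left h
          have h2 : Ag ⊆ A := by
            rw [h1]; exact Finset.subset_union_right
          have h3 : Ag = A := Finset.eq_of_subset_of_card_le h2 (by rw [cAg])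
          have h4 : (1:Γ) ∈ Ag := by rw [h3]; exact hA1
          rw [memAg, one_mul] at h4
          exact hginvA h4
      set N := Fintype.card Γ with hN
      have hN1 : (A ∩ A').card ≤ N := Finset.card_le_univ _
      have hN2 : A.card ≤ N := Finset.card_le_univ _
      rcases Nat.lt_or_ge ((A ∪ Ag).card + (B ∩ g'B).card) (A.card + B.card) with h | h
      · have h5 : A.card + B.card + 1 ≤ (A ∩ A').card + (B ∪ gB).card := by omega
        have := P2 (by nlinarith)
        omega
      · have := P1 (by nlinarith)
        omega

/-- Kemperman's inequality in the form used here. -/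
theorem kemp (H : Finset Γ) (hHinv : ∀ x ∈ H, x⁻¹ ∈ H) (A B C : Finset Γ)
    (hA : ∀ h ∈ H, ∀ a ∈ A, h * a ∈ A) (hB : ∀ b ∈ B, ∀ h ∈ H, b * h ∈ B)
    (hA1 : (1:Γ) ∈ A) (hB1 : (1:Γ) ∈ B) (hK : ∀ a ∈ A, a⁻¹ ∈ B → a ∈ H)
    (hC : ∀ a ∈ A, ∀ b ∈ B, a * b ∈ C) :
    A.card + B.card ≤ C.card + H.card :=
  kemp_aux H hHinv C ((2 * Fintype.card Γ + 1) * (Fintype.card Γ + 1)) A B
    hA hB hA1 hB1 hK hC (by omega)

end Pool.Agent.TH51.SeymourTrace
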