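import Pool.Agent.TH51.SeymourTrace.Kemp

set_option autoImplicit false

namespace Pool.Agent.TH51.SeymourTrace

open Finset Classical

variable {n : ℕ}

/-- Each fibre of `g ↦ g v₀` has the size of the stabiliser. -/
theorem fibre_card (G : Subgroup (Equiv.Perm (Fin n)))
    (htr : ∀ u v : Fin n, ∃ g ∈ G, g u = v) (v₀ w : Fin n) :
    ((Finset.univ : Finset G).filter (fun g : G => g.1 v₀ = w)).card =
      ((Finset.univ : Finset G).filter (fun g : G => g.1 v₀ = v₀)).card := by
  obtain ⟨g₀, hg₀, hg₀w⟩ := htr v₀ w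
  symm
  refine Finset.card_bij (fun h _ => (⟨g₀, hg₀⟩ : G) * h) ?_ ?_ ?_
  · intro h hh
    rw [Finset.mem_filter] at hh ⊢
    refine ⟨Finset.mem_univ _, ?_⟩
    simp [hh.2, hg₀w]
  · intro a _ b _ hab
    exact mul_left_cancel hab
  · intro g hg
    rw [Finset.mem_filter] at hg
    refine ⟨(⟨g₀, hg₀⟩ : G)⁻¹ * g, ?_, by group⟩
    rw [Finset.mem_filter]
    refine ⟨Finset.mem_univ _, ?_⟩
    have : ((⟨g₀, hg₀⟩ : G)⁻¹ * g : G).1 v₀ = g₀⁻¹ (g.1 v₀) := rfl
    rw [this, hg.2, ← hg₀w]
    simp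

theorem card_orbit (G : Subgroup (Equiv.Perm (Fin n)))
    (htr : ∀ u v : Fin n, ∃ g ∈ G, g u = v) (v₀ : Fin n) (R : Fin n → Prop) :
    ((Finset.univ : Finset G).filter (fun g : G => R (g.1 v₀))).card =
      ((Finset.univ : Finset (Fin n)).filter R).card *
      ((Finset.univ : Finset G).filter (fun g : G => g.1 v₀ = v₀)).card := by
  rw [Finset.card_eq_sum_card_fiberwise (f := fun g : G => g.1 v₀)
    (t := (Finset.univ : Finset (Fin n)).filter R)]
  · rw [Finset.sum_const_nat]
    intro w hw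
    rw [← fibre_card G htr v₀ w]
    congr 1
    ext g
    simp only [Finset.mem_filter, Finset.mem_univ, true_and]
    constructor
    · rintro ⟨_, h⟩; exact h
    · intro h
      refine ⟨?_, h⟩
      rw [h]
      exact (Finset.mem_filter.mp hw).2
  · intro g hg
    have := (Finset.mem_filter.mp (Finset.mem_coe.mp hg)).2
    exact Finset.mem_coe.mpr (Finset.mem_filter.mpr ⟨Finset.mem_univ _, this⟩)

/-- Growth of invariant relations. -/
theorem rel_growth (G : Subgroup (Equiv.Perm (Fin n)))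
    (htr : ∀ u v : Fin n, ∃ g ∈ G, g u = v) (R S T : Fin n → Fin n → Prop)
    (hR : ∀ g ∈ G, ∀ u v, R u v → R (g u) (g v))
    (hS : ∀ g ∈ G, ∀ u v, S u v → S (g u) (g v))
    (hRr : ∀ u, R u u) (hSr : ∀ u, S u u)
    (hRS : ∀ u v, R u v → S v u → u = v)
    (hT : ∀ u v w, R u v → S v w → T u w) (v₀ : Fin n) :
    ((Finset.univ : Finset (Fin n)).filter (R v₀)).card +
      ((Finset.univ : Finset (Fin n)).filter (S v₀)).card ≤
      ((Finset.univ : Finset (Fin n)).filter (T v₀)).card + 1 := by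
  set H := (Finset.univ : Finset G).filter (fun g : G => g.1 v₀ = v₀) with hH
  have hH1 : (1 : G) ∈ H := by
    rw [hH, Finset.mem_filter]
    exact ⟨Finset.mem_univ _, rfl⟩
  have hpos : 0 < H.card := Finset.card_pos.mpr ⟨1, hH1⟩
  have key := kemp (Γ := ↥G) H
    (by
      intro x hx
      rw [hH, Finset.mem_filter] at hx ⊢
      refine ⟨Finset.mem_univ _, ?_⟩
      have : (x⁻¹ : G).1 v₀ = (x.1)⁻¹ v₀ := rfl
      rw [this, Equiv.Perm.inv_eq_iff_eq]
      exact hx.2.symm)
    ((Finset.univ : Finset G).filter (fun g : G => R v₀ (g.1 v₀)))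
    ((Finset.univ : Finset G).filter (fun g : G => S v₀ (g.1 v₀)))
    ((Finset.univ : Finset G).filter (fun g : G => T v₀ (g.1 v₀)))
    (by
      intro h hh a ha
      rw [hH, Finset.mem_filter] at hh
      rw [Finset.mem_filter] at ha ⊢
      refine ⟨Finset.mem_univ _, ?_⟩
      have := hR h.1 h.2 _ _ ha.2
      rw [hh.2] at this
      exact this)
    (by
      intro b hb h hh
      rw [hH, Finset.mem_filter] at hh
      rw [Finset.mem_filter] at hb ⊢
      refine ⟨Finset.mem_univ _, ?_⟩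
      have : (b * h : G).1 v₀ = b.1 (h.1 v₀) := rfl
      rw [this, hh.2]
      exact hb.2)
    (by rw [Finset.mem_filter]; exact ⟨Finset.mem_univ _, hRr v₀⟩)
    (by rw [Finset.mem_filter]; exact ⟨Finset.mem_univ _, hSr v₀⟩)
    (by
      intro a ha hb
      rw [Finset.mem_filter] at ha hb
      rw [hH, Finset.mem_filter]
      refine ⟨Finset.mem_univ _, ?_⟩
      have h1 := hS a.1 a.2 _ _ hb.2
      have e : a.1 ((a⁻¹ : G).1 v₀) = v₀ := by
        have : (a⁻¹ : G).1 v₀ = (a.1)⁻¹ v₀ := rfl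
        rw [this]; simp
      rw [e] at h1
      exact (hRS _ _ ha.2 h1).symm)
    (by
      intro a ha b hb
      rw [Finset.mem_filter] at ha hb ⊢
      refine ⟨Finset.mem_univ _, ?_⟩
      have h1 := hS a.1 a.2 _ _ hb.2
      exact hT _ _ _ ha.2 h1)
  rw [card_orbit G htr v₀ (R v₀), card_orbit G htr v₀ (S v₀), card_orbit G htr v₀ (T v₀)] at key
  rw [← hH] at key
  have : (((Finset.univ : Finset (Fin n)).filter (R v₀)).card +
      ((Finset.univ : Finset (Fin n)).filter (S v₀)).card) * H.card ≤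
      (((Finset.univ : Finset (Fin n)).filter (T v₀)).card + 1) * H.card := by
    rw [add_mul, add_mul, one_mul]
    exact key
  exact Nat.le_of_mul_le_mul_right this hpos

end Pool.Agent.TH51.SeymourTrace
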